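import Pool.Agent.Helper66.T4.Good
import Pool.Agent.Helper66.T4.Nj
import Pool.Agent.Helper27.T4.Sch

/-! # T4', block Z4: the lower bound for the counting function from block C -/

set_option autoImplicit false

namespace Pool.Agent.Helper54.T4

open Finset Pool.Agent.Helper5.ET Pool.Agent.Helper66.T4

/-- statement of the block C -/
def CountB : Prop := ∃ (c : ℝ) (s0 : ℕ), 0 < c ∧ ∀ s ≥ s0, ∀ w : Key → ℕ, (∀ k, w k < Mk k) →
    ∀ κ, sk s < κ → κ ≤ sk (s + 1) →
      c * Real.sqrt (Nj κ) / (sl s : ℝ) ^ 3 ≤ (((AA s w).filter (fun a => a < Nj κ)).card : ℝ)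

theorem finite_aux (A : Set ℕ) (x : ℕ) : (A ∩ Set.Iio x).Finite :=
  (Set.finite_Iio x).subset Set.inter_subset_right

theorem one_le_aux (A : Set ℕ) (x : ℕ) (hx : 2 ≤ x) : 1 ≤ ((insert 1 A) ∩ Set.Iio x).ncard := by
  have h : (1 : ℕ) ∈ (insert 1 A) ∩ Set.Iio x := ⟨Set.mem_insert _ _, by
    show 1 < x
    omega⟩
  have h2 := (Set.ncard_pos (finite_aux (insert 1 A) x)).mpr ⟨1, h⟩
  omega

/-- position of `x` in the chain -/
theorem exists_level (x : ℕ) (hx : 1 ≤ x) : ∃ κ, Nj κ ≤ x ∧ x < Nj (κ + 1) := by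
  have hex : ∃ k, x < Nj (k + 1) := by
    refine ⟨x, ?_⟩
    calc x < 2 ^ x := Nat.lt_two_pow_self
      _ ≤ 2 ^ (x + 1) := Nat.pow_le_pow_right (by norm_num) (Nat.le_succ x)
      _ ≤ Nj (x + 1) := two_pow_le_Nj _
  classical
  refine ⟨Nat.find hex, ?_, Nat.find_spec hex⟩
  rcases Nat.eq_zero_or_pos (Nat.find hex) with h | h
  · rw [h, Nj_zero]
    exact hx
  · have := Nat.find_min hex (m := Nat.find hex - 1) (by omega)
    have e : Nat.find hex - 1 + 1 = Nat.find hex := by omega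
    rw [e] at this
    omega

/-- the state whose range contains the level `κ` -/
theorem exists_state (s2 κ : ℕ) (h : sk s2 < κ) : ∃ s, s2 ≤ s ∧ sk s < κ ∧ κ ≤ sk (s + 1) := by
  have hex : ∃ s, κ ≤ sk (s + 1) := by
    refine ⟨κ, ?_⟩
    have := Pool.Agent.Helper27.T4.sk_strictMono.le_apply (x := κ + 1)
    omega
  classical
  have h1 := Nat.find_spec hex
  have hge : s2 ≤ Nat.find hex := by
    by_contra hc
    push Not at hc
    have := Pool.Agent.Helper27.T4.sk_strictMono.monotone (show Nat.find hex + 1 ≤ s2 by omega)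
    omega
  refine ⟨Nat.find hex, hge, ?_, h1⟩
  rcases Nat.eq_or_lt_of_le hge with he | hlt
  · rw [← he]
    exact h
  · have := Nat.find_min hex (m := Nat.find hex - 1) (by omega)
    have e : Nat.find hex - 1 + 1 = Nat.find hex := by omega
    rw [e] at this
    omega

theorem z4 (h : CountB) : ∀ s0 : ℕ, ∃ C2 : ℝ, 0 < C2 ∧ ∀ (S : ℕ) (w : Key → ℕ),
    (∀ k, w k < Mk k) → ∀ x : ℕ, 2 ≤ x → x < Nj (sk S) →
      Real.sqrt x / (C2 * (Real.log x) ^ 3) ≤
        (((insert 1 (AS s0 S w)) ∩ Set.Iio x).ncard : ℝ) := by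
  obtain ⟨c, s1, hc, hcount⟩ := h
  intro s0
  set s2 := max s0 s1 with hs2
  set X0 := Nj (sk s2 + 1) with hX0
  have hl2 : (1 : ℝ) / 2 ≤ Real.log 2 := by
    have := Real.log_two_gt_d9
    linarith
  have hX0pos : (0 : ℝ) < Real.sqrt X0 := by
    apply Real.sqrt_pos.mpr
    exact_mod_cast Nj_pos _
  refine ⟨8 * Real.sqrt X0 + 8100 / c, by positivity, ?_⟩
  intro S w hw x hx hxS
  have hx2 : (2 : ℝ) ≤ x := by exact_mod_cast hx
  have hlx : (1 : ℝ) / 2 ≤ Real.log x := le_trans hl2 (Real.log_le_log (by norm_num) hx2)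
  have hlx3 : (1 : ℝ) / 8 ≤ Real.log x ^ 3 := by
    calc (1 : ℝ) / 8 = (1 / 2) ^ 3 := by norm_num
      _ ≤ Real.log x ^ 3 := pow_le_pow_left₀ (by norm_num) hlx 3
  have hlpos : 0 < Real.log x ^ 3 := by linarith
  have hcpos : 0 < 8100 / c := by positivity
  rcases Nat.lt_or_ge x X0 with hlt | hge
  · -- small `x`
    have h1 : (1 : ℝ) ≤ (((insert 1 (AS s0 S w)) ∩ Set.Iio x).ncard : ℝ) := by
      exact_mod_cast one_le_aux _ _ hx
    refine le_trans ?_ h1
    rw [div_le_one (by positivity)]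
    have h2 : Real.sqrt x ≤ Real.sqrt X0 := Real.sqrt_le_sqrt (by exact_mod_cast hlt.le)
    calc Real.sqrt x ≤ Real.sqrt X0 := h2
      _ = (8 * Real.sqrt X0) * (1 / 8) := by ring
      _ ≤ (8 * Real.sqrt X0 + 8100 / c) * Real.log x ^ 3 := by
        apply mul_le_mul _ hlx3 (by norm_num) (by positivity)
        linarith
  · -- large `x`
    obtain ⟨κ, hκ1, hκ2⟩ := exists_level x (by omega)
    have hκ : sk s2 < κ := by
      have h1 : Nj (sk s2 + 1) < Nj (κ + 1) := lt_of_le_of_lt hge hκ2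
      have h2 := Nj_strictMono.lt_iff_lt.mp h1
      omega
    have hκS : κ < sk S := Nj_strictMono.lt_iff_lt.mp (lt_of_le_of_lt hκ1 hxS)
    obtain ⟨s, hs2', hs3, hs4⟩ := exists_state s2 κ hκ
    have hsS : s < S := Pool.Agent.Helper27.T4.sk_strictMono.lt_iff_lt.mp (lt_trans hs3 hκS)
    have hcs := hcount s (le_trans (le_max_right _ _) hs2') w hw κ hs3 hs4
    have hsub : (((AA s w).filter (fun a => a < Nj κ) : Finset ℕ) : Set ℕ) ⊆
        (insert 1 (AS s0 S w)) ∩ Set.Iio x := by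
      intro a ha
      rw [Finset.mem_coe, Finset.mem_filter] at ha
      refine ⟨Set.mem_insert_of_mem _ ⟨s, le_trans (le_max_left _ _) hs2', hsS, ha.1⟩, ?_⟩
      exact lt_of_lt_of_le ha.2 hκ1
    have hcard : (((AA s w).filter (fun a => a < Nj κ)).card : ℝ) ≤
        (((insert 1 (AS s0 S w)) ∩ Set.Iio x).ncard : ℝ) := by
      have h1 := Set.ncard_le_ncard hsub (finite_aux _ _)
      rw [Set.ncard_coe_finset] at h1
      exact_mod_cast h1
    refine le_trans ?_ (le_trans hcs hcard)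
    -- the size of `sl s`
    have hslκ : sl s ≤ κ := by
      have h1 := Pool.Agent.Helper27.T4.sl_lt_se s
      have h2 : se s ≤ sk s := by
        rcases Nat.even_or_odd s with ⟨c', hc'⟩ | ⟨c', hc'⟩
        · have e : s = 2 * c' := by omega
          rw [e, Pool.Agent.Helper27.T4.sk_even]
          unfold se
          have e1 : 2 * c' / 2 + 1 + 2 * c' % 2 = c' + 1 := by omega
          rw [e1]
          omega
        · rw [hc', Pool.Agent.Helper27.T4.sk_odd]
          unfold se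
          have e1 : (2 * c' + 1) / 2 + 1 + (2 * c' + 1) % 2 = c' + 2 := by omega
          rw [e1]
          omega
      omega
    have hslpos : (0 : ℝ) < sl s := by
      have := Pool.Agent.Helper27.T4.sl_ge s
      have h3 : 0 < sl s := lt_of_lt_of_le (by norm_num) this
      exact_mod_cast h3
    have hlog : (sl s : ℝ) ≤ 2 * Real.log x := by
      have h1 : (2 : ℝ) ^ κ ≤ x := by
        exact_mod_cast (two_pow_le_Nj κ).trans hκ1
      have h2 : (κ : ℝ) * Real.log 2 ≤ Real.log x := by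
        have := Real.log_le_log (by positivity) h1
        rwa [Real.log_pow] at this
      have h3 : (sl s : ℝ) ≤ κ := by exact_mod_cast hslκ
      have h4 : (0 : ℝ) ≤ κ := Nat.cast_nonneg _
      nlinarith
    have hsl3 : (sl s : ℝ) ^ 3 ≤ 8 * Real.log x ^ 3 := by
      calc (sl s : ℝ) ^ 3 ≤ (2 * Real.log x) ^ 3 := pow_le_pow_left₀ hslpos.le hlog 3
        _ = 8 * Real.log x ^ 3 := by ring
    have hsq : Real.sqrt x ≤ 1001 * Real.sqrt (Nj κ) := by
      have h1 : (x : ℝ) ≤ 1001 ^ 2 * (Nj κ : ℝ) := by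
        have h2 : x ≤ 1000037 * Nj κ := le_trans hκ2.le (Nj_succ_le κ)
        have h3 : x ≤ 1001 ^ 2 * Nj κ := h2.trans (Nat.mul_le_mul_right _ (by norm_num))
        exact_mod_cast h3
      calc Real.sqrt x ≤ Real.sqrt (1001 ^ 2 * (Nj κ : ℝ)) := Real.sqrt_le_sqrt h1
        _ = 1001 * Real.sqrt (Nj κ) := by
          rw [Real.sqrt_mul (by norm_num), Real.sqrt_sq (by norm_num)]
    have hN0 : 0 ≤ Real.sqrt (Nj κ) := Real.sqrt_nonneg _
    rw [div_le_div_iff₀ (by positivity) (by positivity)]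
    have h8 : 8100 ≤ (8 * Real.sqrt X0 + 8100 / c) * c := by
      have : 8100 / c * c = 8100 := by field_simp
      nlinarith
    calc Real.sqrt x * (sl s : ℝ) ^ 3
        ≤ (1001 * Real.sqrt (Nj κ)) * (8 * Real.log x ^ 3) := by
          apply mul_le_mul hsq hsl3 (by positivity) (by positivity)
      _ = 8008 * (Real.sqrt (Nj κ) * Real.log x ^ 3) := by ring
      _ ≤ ((8 * Real.sqrt X0 + 8100 / c) * c) * (Real.sqrt (Nj κ) * Real.log x ^ 3) := by
          apply mul_le_mul_of_nonneg_right _ (by positivity)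
          linarith
      _ = c * Real.sqrt (Nj κ) * ((8 * Real.sqrt X0 + 8100 / c) * Real.log x ^ 3) := by ring

end Pool.Agent.Helper54.T4
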